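import Mathlib

set_option linter.dupNamespace false

namespace Pool.Agent.H.MP_b9fb92_an

open Set Filter Topology Complex
open scoped ComplexConjugate BoundedContinuousFunction

noncomputable def r : ℝ := √2 - 1

lemma r2 : r ^ 2 = 1 - 2 * r := by
  have := Real.sq_sqrt (show (0 : ℝ) ≤ 2 by norm_num)
  unfold r; nlinarith

lemma r3 : r ^ 3 = 5 * r - 2 := by linear_combination (r - 2) * r2

lemma rb : 0.41 < r ∧ r < 0.42 := by
  have h1 : 1.41 < √2 := Real.lt_sqrt_of_sq_lt (by norm_num)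
  have h2 : √2 < 1.42 := (Real.sqrt_lt' (by norm_num)).2 (by norm_num)
  unfold r; constructor <;> linarith

lemma r0 : 0 < r := by linarith [rb.1]

lemma kr (n : ℕ) (u : ℝ) : (r + 2) ^ n * (r ^ n * u) = u := by
  rw [← mul_assoc, ← mul_pow, show (r + 2) * r = 1 by linear_combination r2, one_pow, one_mul]

lemma ex (n : ℕ) {y : ℝ} (h0 : 0 ≤ y) (h1 : y ≤ r ^ n) : ∃ u ∈ Icc (0 : ℝ) 1, y = r ^ n * u :=
  ⟨y / r ^ n, ⟨div_nonneg h0 (pow_pos r0 n).le, (div_le_one (pow_pos r0 n)).2 h1⟩,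
    (mul_div_cancel₀ _ (pow_pos r0 n).ne').symm⟩

lemma ub (n : ℕ) {u : ℝ} (h : u ∈ Icc (0 : ℝ) 1) : 0 ≤ r ^ n * u ∧ r ^ n * u ≤ r ^ n :=
  ⟨mul_nonneg (pow_pos r0 n).le h.1, mul_le_of_le_one_right (pow_pos r0 n).le h.2⟩

def Bd (g : ℝ → ℂ) : Prop := (∀ x ≤ 0, g x = 0) ∧ ∀ x ≥ 1, g x = 1

variable {g : ℝ → ℂ} {u x y : ℝ}

lemma Bd.z (h : Bd g) (n : ℕ) (hy : y ≤ 0) : g ((r + 2) ^ n * y) = 0 :=
  h.1 _ (mul_nonpos_of_nonneg_of_nonpos (pow_nonneg (by linarith [r0]) n) hy)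

lemma Bd.o (h : Bd g) (n : ℕ) (hy : r ^ n ≤ y) : g ((r + 2) ^ n * y) = 1 :=
  h.2 _ ((kr n 1).ge.trans (mul_le_mul_of_nonneg_left (by rwa [mul_one])
    (pow_nonneg (by linarith [r0]) n)))

noncomputable def Op (g : ℝ → ℂ) (x : ℝ) : ℂ :=
  ⟨1 / 5, 0⟩ * g ((r + 2) ^ 2 * x) + ⟨2 / 25, -1 / 25⟩ * (1 - conj (g ((r + 2) ^ 3 *
    (r ^ 2 + r ^ 3 - x)))) + ⟨3 / 25, -4 / 25⟩ * g ((r + 2) ^ 2 * (x - (r ^ 2 + r ^ 3))) +
    ⟨2 / 5, 1 / 5⟩ * (1 - conj (g ((r + 2) ^ 1 * (2 * r - x)))) +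
    ⟨1 / 5, 0⟩ * g ((r + 2) ^ 2 * (x - 2 * r))

def E1 (f g : ℝ → ℂ) (u : ℝ) : Prop := f (r ^ 2 * u) = ⟨1 / 5, 0⟩ * g u
def E2 (f g : ℝ → ℂ) (u : ℝ) : Prop :=
  f (r ^ 2 + r ^ 3 - r ^ 3 * u) = ⟨7 / 25, -1 / 25⟩ - ⟨2 / 25, -1 / 25⟩ * conj (g u)
def E3 (f g : ℝ → ℂ) (u : ℝ) : Prop :=
  f (r ^ 2 + r ^ 3 + r ^ 2 * u) = ⟨7 / 25, -1 / 25⟩ + ⟨3 / 25, -4 / 25⟩ * g u
def E4 (f g : ℝ → ℂ) (u : ℝ) : Prop :=
  f (2 * r - r ^ 1 * u) = ⟨4 / 5, 0⟩ - ⟨2 / 5, 1 / 5⟩ * conj (g u)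
def E5 (f g : ℝ → ℂ) (u : ℝ) : Prop := f (2 * r + r ^ 2 * u) = ⟨4 / 5, 0⟩ + ⟨1 / 5, 0⟩ * g u

lemma opE (h : Bd g) (hu : u ∈ Icc (0 : ℝ) 1) : E1 (Op g) g u ∧ E2 (Op g) g u ∧ E3 (Op g) g u ∧
    E4 (Op g) g u ∧ E5 (Op g) g u := by
  obtain ⟨a1, b1⟩ := ub 1 hu
  obtain ⟨a2, b2⟩ := ub 2 hu
  obtain ⟨a3, b3⟩ := ub 3 hu
  obtain ⟨c1, c2⟩ := rb
  have := r2
  have := r3
  have := pow_one r
  refine ⟨?_, ?_, ?_, ?_, ?_⟩
  · rw [E1, Op, kr, h.o 3 (by linarith), h.z 2 (by linarith), h.o 1 (by linarith),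
      h.z 2 (by linarith)]
    simp
  · rw [E2, Op, sub_sub_cancel, kr, h.o 2 (by linarith), h.z 2 (by linarith), h.o 1 (by linarith),
      h.z 2 (by linarith)]
    apply Complex.ext <;> simp <;> ring
  · rw [E3, Op, add_sub_cancel_left, kr, h.o 2 (by linarith), h.z 3 (by linarith),
      h.o 1 (by linarith), h.z 2 (by linarith)]
    apply Complex.ext <;> simp <;> ring
  · rw [E4, Op, sub_sub_cancel, kr, h.o 2 (by linarith), h.z 3 (by linarith),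
      h.o 2 (by linarith), h.z 2 (by linarith)]
    apply Complex.ext <;> simp <;> ring
  · rw [E5, Op, add_sub_cancel_left, kr, h.o 2 (by linarith), h.z 3 (by linarith),
      h.o 2 (by linarith), h.z 1 (by linarith)]
    apply Complex.ext <;> simp <;> ring

lemma opB (h : Bd g) : Bd (Op g) := by
  obtain ⟨c1, c2⟩ := rb
  have := r2
  have := r3
  have := pow_one r
  refine ⟨fun x hx => ?_, fun x hx => ?_⟩
  · rw [Op, h.z 2 hx, h.o 3 (by linarith), h.z 2 (by linarith), h.o 1 (by linarith),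
      h.z 2 (by linarith)]
    simp
  · rw [Op, h.o 2 (by linarith), h.z 3 (by linarith), h.o 2 (by linarith), h.z 1 (by linarith),
      h.o 2 (by linarith)]
    apply Complex.ext <;> simp <;> ring

lemma cover (x : ℝ) : x ≤ 0 ∨ 1 ≤ x ∨ ∃ u ∈ Icc (0 : ℝ) 1, x = r ^ 2 * u ∨
    x = r ^ 2 + r ^ 3 - r ^ 3 * u ∨ x = r ^ 2 + r ^ 3 + r ^ 2 * u ∨ x = 2 * r - r ^ 1 * u ∨
    x = 2 * r + r ^ 2 * u := by
  have := r2
  have := r3
  have := pow_one r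
  rcases le_total x 0 with h0 | h0
  · exact .inl h0
  rcases le_total x (r ^ 2) with h1 | h1
  · obtain ⟨u, hu, e⟩ := ex 2 h0 h1
    exact .inr (.inr ⟨u, hu, .inl e⟩)
  rcases le_total x (r ^ 2 + r ^ 3) with h2 | h2
  · obtain ⟨u, hu, e⟩ := ex 3 (sub_nonneg.2 h2) (by linarith)
    exact .inr (.inr ⟨u, hu, .inr (.inl (by linarith))⟩)
  rcases le_total x r with h3 | h3
  · obtain ⟨u, hu, e⟩ := ex 2 (sub_nonneg.2 h2) (by linarith)
    exact .inr (.inr ⟨u, hu, .inr (.inr (.inl (by linarith)))⟩)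
  rcases le_total x (2 * r) with h4 | h4
  · obtain ⟨u, hu, e⟩ := ex 1 (sub_nonneg.2 h4) (by linarith)
    exact .inr (.inr ⟨u, hu, .inr (.inr (.inr (.inl (by linarith))))⟩)
  rcases le_total x 1 with h5 | h5
  · obtain ⟨u, hu, e⟩ := ex 2 (sub_nonneg.2 h4) (by linarith)
    exact .inr (.inr ⟨u, hu, .inr (.inr (.inr (.inr (by linarith))))⟩)
  · exact .inr (.inl h5)

def D (z : ℂ) : Prop := z.im ≤ 0 ∧ -2 * z.im ≤ z.re ∧ -2 * z.im ≤ 1 - z.re ∧ -5 * z.im ≤ 1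

lemma opD (h : Bd g) (hD : ∀ x, D (g x)) (x : ℝ) : D (Op g x) := by
  rcases cover x with c | c | ⟨u, hu, c⟩
  · rw [(opB h).1 x c]; simp [D]
  · rw [(opB h).2 x c]; simp [D]
  obtain ⟨e1, e2, e3, e4, e5⟩ := opE h hu
  obtain ⟨d1, d2, d3, d4⟩ := hD u
  rcases c with rfl | rfl | rfl | rfl | rfl
  · rw [e1]; simp [D]; refine ⟨?_, ?_, ?_, ?_⟩ <;> linarith
  · rw [e2]; simp [D]; refine ⟨?_, ?_, ?_, ?_⟩ <;> linarith
  · rw [e3]; simp [D]; refine ⟨?_, ?_, ?_, ?_⟩ <;> linarith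
  · rw [e4]; simp [D]; refine ⟨?_, ?_, ?_, ?_⟩ <;> linarith
  · rw [e5]; simp [D]; refine ⟨?_, ?_, ?_, ?_⟩ <;> linarith

lemma nb {c : ℂ} (h : |c.re| + |c.im| ≤ 3 / 5) (z : ℂ) : ‖c * z‖ ≤ 3 / 5 * ‖z‖ := by
  rw [norm_mul]
  exact mul_le_mul_of_nonneg_right ((norm_le_abs_re_add_abs_im c).trans h) (norm_nonneg _)

theorem exg : ∃ g : ℝ → ℂ, Continuous g ∧ Bd g ∧ (∀ x, D (g x)) ∧ Op g = g := by
  let s : Set (ℝ →ᵇ ℂ) := {g | Bd g ∧ ∀ x, D (g x)}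
  have cl : IsClosed s := by
    simp only [s, Bd, D, ofPred_and, ofPred_forall]
    refine ((isClosed_iInter fun x => isClosed_iInter fun _ => isClosed_eq ?_ ?_).inter
      (isClosed_iInter fun x => isClosed_iInter fun _ => isClosed_eq ?_ ?_)).inter
      (isClosed_iInter fun x => (isClosed_le ?_ ?_).inter ((isClosed_le ?_ ?_).inter
        ((isClosed_le ?_ ?_).inter (isClosed_le ?_ ?_)))) <;> fun_prop
  have := cl.completeSpace_coe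
  have bd : ∀ z, D z → ‖z‖ ≤ 2 := fun z ⟨d1, d2, d3, d4⟩ =>
    (norm_le_abs_re_add_abs_im z).trans (by
      rw [abs_of_nonneg (by linarith), abs_of_nonpos d1]; linarith)
  have : Nonempty s := ⟨⟨BoundedContinuousFunction.ofNormedAddCommGroup
    (fun x => ((max 0 (min x 1) : ℝ) : ℂ)) (by fun_prop) 2 fun x => bd _ (by simp [D]),
    ⟨fun x hx => by simp [hx], fun x hx => by simp [min_eq_right hx]⟩, fun x => by simp [D]⟩⟩
  let F : s → s := fun g => ⟨BoundedContinuousFunction.ofNormedAddCommGroup (Op g.1)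
    (by unfold Op; fun_prop) 2 fun x => bd _ (opD g.2.1 g.2.2 x), opB g.2.1, opD g.2.1 g.2.2⟩
  have hF : ContractingWith (3 / 5) F := ⟨by norm_num, LipschitzWith.of_dist_le_mul fun g g' => by
    refine (BoundedContinuousFunction.dist_le (by positivity)).2 fun x => ?_
    change dist (Op g.1 x) (Op g'.1 x) ≤ 3 / 5 * dist g.1 g'.1
    rcases cover x with c | c | ⟨u, hu, c⟩
    · rw [(opB g.2.1).1 x c, (opB g'.2.1).1 x c, dist_self]; positivity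
    · rw [(opB g.2.1).2 x c, (opB g'.2.1).2 x c, dist_self]; positivity
    obtain ⟨e1, e2, e3, e4, e5⟩ := opE g.2.1 hu
    obtain ⟨f1, f2, f3, f4, f5⟩ := opE g'.2.1 hu
    refine le_trans ?_ (mul_le_mul_of_nonneg_left (BoundedContinuousFunction.dist_coe_le_dist u)
      (by norm_num))
    rw [dist_eq_norm, dist_eq_norm]
    rcases c with rfl | rfl | rfl | rfl | rfl
    · rw [e1, f1, ← mul_sub]; exact nb (by norm_num [abs_of_pos]) _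
    · rw [e2, f2, sub_sub_sub_cancel_left, ← mul_sub, ← map_sub]
      exact (nb (by norm_num [abs_of_pos]) _).trans_eq (by rw [norm_conj, norm_sub_rev])
    · rw [e3, f3, add_sub_add_left_eq_sub, ← mul_sub]; exact nb (by norm_num [abs_of_pos]) _
    · rw [e4, f4, sub_sub_sub_cancel_left, ← mul_sub, ← map_sub]
      exact (nb (by norm_num [abs_of_pos]) _).trans_eq (by rw [norm_conj, norm_sub_rev])
    · rw [e5, f5, add_sub_add_left_eq_sub, ← mul_sub]; exact nb (by norm_num [abs_of_pos]) _⟩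
  set g := hF.fixedPoint F
  exact ⟨g.1, g.1.continuous, g.2.1, g.2.2,
    congrArg (fun g : s => (g.1 : ℝ → ℂ)) hF.fixedPoint_isFixedPt⟩

end Pool.Agent.H.MP_b9fb92_an
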