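import Pool.Agent.H.MP_b9fb92_an.A

set_option linter.dupNamespace false

namespace Pool.Agent.H.MP_b9fb92_an

open Set Filter Topology Complex
open scoped ComplexConjugate

structure Gd (g : ℝ → ℂ) : Prop where
  c : Continuous g
  b : Bd g
  d : ∀ x, D (g x)
  e : ∀ u ∈ Icc (0 : ℝ) 1, E1 g g u ∧ E2 g g u ∧ E3 g g u ∧ E4 g g u ∧ E5 g g u

lemma exG : ∃ g, Gd g := by
  obtain ⟨g, c, b, d, e⟩ := exg
  exact ⟨g, c, b, d, fun u hu => by simpa only [e] using opE b hu⟩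

variable {g : ℝ → ℂ} {u x y : ℝ}

lemma sm {u : ℝ} (h : 0 < u) : ∃ n, r ^ n ≤ u :=
  (exists_pow_lt_of_lt_one h (by linarith [rb.2] : r < 1)).imp fun _ => le_of_lt

lemma rp (n : ℕ) : r ^ (n + 1) ≤ r ^ n :=
  pow_le_pow_of_le_one r0.le (by linarith [rb.2]) n.le_succ

lemma dn (n m : ℕ) [NeZero m] (h : r ^ (n + 1) ≤ r ^ m * u) : r ^ n ≤ u := by
  obtain ⟨m, rfl⟩ := Nat.exists_eq_succ_of_ne_zero (NeZero.ne m)
  have := pow_pos r0 n
  have := pow_pos r0 m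
  have m1 : r ^ m ≤ 1 := pow_le_one₀ r0.le (by linarith [rb.2])
  have h' : r * r ^ n ≤ r * (r ^ m * u) := by rw [← mul_assoc, ← pow_succ', ← pow_succ']; exact h
  have := le_of_mul_le_mul_left h' r0
  have u0 : 0 < u := (mul_pos_iff_of_pos_left ‹0 < r ^ m›).1 (by linarith)
  nlinarith

lemma Gd.s0 (G : Gd g) (h : 0 < x) : 0 < (g x).re := by
  obtain ⟨n, hn⟩ := sm h
  induction n generalizing x with
  | zero => rw [G.b.2 x (by simpa using hn)]; simp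
  | succ n ih =>
    rcases cover x with c | c | ⟨u, hu, c⟩
    · linarith
    · rw [G.b.2 x c]; simp
    obtain ⟨e1, e2, e3, e4, e5⟩ := G.e u hu
    obtain ⟨d1, d2, d3, d4⟩ := G.d u
    rcases c with rfl | rfl | rfl | rfl | rfl
    · have := dn n 2 hn
      rw [e1]; simpa using ih ((pow_pos r0 n).trans_le this) this
    · rw [e2]; simp; linarith
    · rw [e3]; simp; linarith
    · rw [e4]; simp; linarith
    · rw [e5]; simp; linarith

lemma Gd.s1 (G : Gd g) (h : x < 1) : (g x).re < 1 := by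
  obtain ⟨n, hn⟩ := sm (sub_pos.2 h)
  induction n generalizing x with
  | zero => rw [G.b.1 x (by simpa using hn)]; simp
  | succ n ih =>
    rcases cover x with c | c | ⟨u, hu, c⟩
    · rw [G.b.1 x c]; simp
    · linarith
    obtain ⟨e1, e2, e3, e4, e5⟩ := G.e u hu
    obtain ⟨d1, d2, d3, d4⟩ := G.d u
    rcases c with rfl | rfl | rfl | rfl | rfl
    · rw [e1]; simp; linarith
    · rw [e2]; simp; linarith
    · rw [e3]; simp; linarith
    · rw [e4]; simp; linarith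
    · have := dn (u := 1 - u) n 2 (by linarith [r2])
      have := ih (by linarith [pow_pos r0 n]) this
      rw [e5]; simp; linarith

lemma Gd.cut (G : Gd g) (x : ℝ) : (1 / 5 ≤ (g x).re ↔ r ^ 2 ≤ x) ∧
    (7 / 25 ≤ (g x).re ↔ r ^ 2 + r ^ 3 ≤ x) ∧ (2 / 5 ≤ (g x).re ↔ r ≤ x) ∧
    (4 / 5 ≤ (g x).re ↔ 2 * r ≤ x) := by
  obtain ⟨c1, c2⟩ := rb
  have := r2
  have := r3
  have := pow_one r
  have k : ∀ {a b : Prop}, (a ∧ b) ∨ (¬a ∧ ¬b) → (a ↔ b) := by tauto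
  rcases cover x with c | c | ⟨u, hu, c⟩
  · rw [G.b.1 x c]
    refine ⟨k (.inr ⟨?_, ?_⟩), k (.inr ⟨?_, ?_⟩), k (.inr ⟨?_, ?_⟩), k (.inr ⟨?_, ?_⟩)⟩ <;>
      (try simp) <;> linarith
  · rw [G.b.2 x c]
    refine ⟨k (.inl ⟨?_, ?_⟩), k (.inl ⟨?_, ?_⟩), k (.inl ⟨?_, ?_⟩), k (.inl ⟨?_, ?_⟩)⟩ <;>
      (try simp) <;> linarith
  obtain ⟨e1, e2, e3, e4, e5⟩ := G.e u hu
  obtain ⟨d1, d2, d3, d4⟩ := G.d u
  obtain ⟨a1, b1⟩ := ub 1 hu
  obtain ⟨a2, b2⟩ := ub 2 hu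
  obtain ⟨a3, b3⟩ := ub 3 hu
  have z0 : ∀ n, (u = 0 ∧ g u = 0) ∨ (0 < r ^ n * u ∧ 0 < (g u).re) := fun n =>
    hu.1.eq_or_lt.imp (fun h => ⟨h.symm, G.b.1 u h.ge⟩) fun h => ⟨mul_pos (pow_pos r0 n) h, G.s0 h⟩
  have z1 : ∀ n, (u = 1 ∧ g u = 1) ∨ (r ^ n * u < r ^ n ∧ (g u).re < 1) := fun n =>
    hu.2.eq_or_lt.imp (fun h => ⟨h, G.b.2 u h.ge⟩) fun h =>
      ⟨mul_lt_of_lt_one_right (pow_pos r0 n) h, G.s1 h⟩
  rcases c with rfl | rfl | rfl | rfl | rfl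
  · rw [e1]
    refine ⟨k ((z1 2).imp (fun h => ⟨?_, ?_⟩) fun ⟨_, _⟩ => ⟨?_, ?_⟩), k (.inr ⟨?_, ?_⟩),
      k (.inr ⟨?_, ?_⟩), k (.inr ⟨?_, ?_⟩)⟩
    iterate 2 simp [h.1, G.b.2 1 le_rfl]
    all_goals (try simp) <;> linarith
  · rw [e2]
    refine ⟨k (.inl ⟨?_, ?_⟩), k ((z0 3).imp (fun h => ⟨?_, ?_⟩) fun ⟨_, _⟩ => ⟨?_, ?_⟩),
      k (.inr ⟨?_, ?_⟩), k (.inr ⟨?_, ?_⟩)⟩
    iterate 2 (try simp) <;> linarith
    iterate 2 simp [h.1, G.b.1 0 le_rfl]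
    all_goals (try simp) <;> linarith
  · rw [e3]
    refine ⟨k (.inl ⟨?_, ?_⟩), k (.inl ⟨?_, ?_⟩),
      k ((z1 2).imp (fun h => ⟨?_, ?_⟩) fun ⟨_, _⟩ => ⟨?_, ?_⟩), k (.inr ⟨?_, ?_⟩)⟩
    iterate 4 (try simp) <;> linarith
    iterate 2 simp [h.1, G.b.2 1 le_rfl]; linarith
    all_goals (try simp) <;> linarith
  · rw [e4]
    refine ⟨k (.inl ⟨?_, ?_⟩), k (.inl ⟨?_, ?_⟩), k (.inl ⟨?_, ?_⟩),
      k ((z0 1).imp (fun h => ⟨?_, ?_⟩) fun ⟨_, _⟩ => ⟨?_, ?_⟩)⟩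
    iterate 6 (try simp) <;> linarith
    iterate 2 simp [h.1, G.b.1 0 le_rfl]
    all_goals (try simp) <;> linarith
  · rw [e5]
    refine ⟨k (.inl ⟨?_, ?_⟩), k (.inl ⟨?_, ?_⟩), k (.inl ⟨?_, ?_⟩), k (.inl ⟨?_, ?_⟩)⟩ <;>
      (try simp) <;> linarith

lemma Gd.inj (G : Gd g) (x0 : 0 ≤ x) (h : x < y) (y1 : y ≤ 1) : g x ≠ g y := by
  obtain ⟨n, hn⟩ := sm (sub_pos.2 h)
  induction n generalizing x y with
  | zero =>
    rw [pow_zero] at hn
    rw [G.b.1 x (by linarith), G.b.2 y (by linarith)]; simp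
  | succ n ih =>
    intro e
    have p := pow_pos r0 n
    obtain ⟨a1, a2, a3, a4⟩ := G.cut x
    obtain ⟨b1, b2, b3, b4⟩ := G.cut y
    rw [e, b1] at a1
    rw [e, b2] at a2
    rw [e, b3] at a3
    rw [e, b4] at a4
    have := r2
    have := r3
    have := pow_one r
    rcases lt_or_ge y (r ^ 2) with h1 | h1
    · obtain ⟨u, hu, rfl⟩ := ex 2 x0 (by linarith)
      obtain ⟨v, hv, rfl⟩ := ex 2 (x0.trans h.le) h1.le
      have := dn (u := v - u) n 2 (by linarith)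
      rw [(G.e u hu).1, (G.e v hv).1] at e
      exact ih hu.1 (by linarith) hv.2 this (mul_left_cancel₀ (by simp [Complex.ext_iff]) e)
    rcases lt_or_ge y (r ^ 2 + r ^ 3) with h2 | h2
    · obtain ⟨u, hu, eu⟩ := ex 3 (y := r ^ 2 + r ^ 3 - x) (by linarith) (by linarith [a1.1 h1])
      obtain ⟨v, hv, ev⟩ := ex 3 (y := r ^ 2 + r ^ 3 - y) (by linarith) (by linarith)
      have := dn (u := u - v) n 3 (by linarith)
      rw [show x = r ^ 2 + r ^ 3 - r ^ 3 * u by linarith,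
        show y = r ^ 2 + r ^ 3 - r ^ 3 * v by linarith, (G.e u hu).2.1, (G.e v hv).2.1] at e
      exact ih hv.1 (by linarith) hu.2 this (star_injective (mul_left_cancel₀
        (by simp [Complex.ext_iff]) (sub_right_injective e))).symm
    rcases lt_or_ge y r with h3 | h3
    · obtain ⟨u, hu, eu⟩ := ex 2 (sub_nonneg.2 (a2.1 h2)) (by linarith)
      obtain ⟨v, hv, ev⟩ := ex 2 (sub_nonneg.2 h2) (by linarith)
      have := dn (u := v - u) n 2 (by linarith)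
      rw [eq_add_of_sub_eq' eu, eq_add_of_sub_eq' ev, (G.e u hu).2.2.1, (G.e v hv).2.2.1] at e
      exact ih hu.1 (by linarith) hv.2 this (mul_left_cancel₀ (by simp [Complex.ext_iff])
        (add_left_cancel e))
    rcases lt_or_ge y (2 * r) with h4 | h4
    · obtain ⟨u, hu, eu⟩ := ex 1 (y := 2 * r - x) (by linarith) (by linarith [a3.1 h3])
      obtain ⟨v, hv, ev⟩ := ex 1 (y := 2 * r - y) (by linarith) (by linarith)
      have := dn (u := u - v) n 1 (by linarith)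
      rw [show x = 2 * r - r ^ 1 * u by linarith,
        show y = 2 * r - r ^ 1 * v by linarith, (G.e u hu).2.2.2.1, (G.e v hv).2.2.2.1] at e
      exact ih hv.1 (by linarith) hu.2 this (star_injective (mul_left_cancel₀
        (by simp [Complex.ext_iff]) (sub_right_injective e))).symm
    · obtain ⟨u, hu, eu⟩ := ex 2 (sub_nonneg.2 (a4.1 h4)) (by linarith)
      obtain ⟨v, hv, ev⟩ := ex 2 (sub_nonneg.2 h4) (by linarith)
      have := dn (u := v - u) n 2 (by linarith)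
      rw [eq_add_of_sub_eq' eu, eq_add_of_sub_eq' ev, (G.e u hu).2.2.2.2, (G.e v hv).2.2.2.2] at e
      exact ih hu.1 (by linarith) hv.2 this (mul_left_cancel₀ (by simp [Complex.ext_iff])
        (add_left_cancel e))

lemma Gd.pw (G : Gd g) (k : ℕ) (x : ℝ) : (1 / 5) ^ k ≤ (g x).re ↔ (r ^ 2) ^ k ≤ x := by
  induction k generalizing x with
  | zero =>
    simp only [pow_zero]
    exact ⟨fun h => not_lt.1 fun c => (G.s1 c).not_ge h, fun h => by rw [G.b.2 x h]; simp⟩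
  | succ k ih =>
    have p := pow_pos r0 2
    rcases le_total x 0 with c | c
    · rw [G.b.1 x c]
      exact iff_of_false (by simp) (not_le.2 (c.trans_lt (pow_pos p _)))
    rcases le_total x (r ^ 2) with c' | c'
    · obtain ⟨u, hu, rfl⟩ := ex 2 c c'
      rw [(G.e u hu).1, pow_succ', pow_succ' (r ^ 2), mul_le_mul_iff_right₀ p, ← ih]
      simp
    · refine iff_of_true (le_trans ?_ ((G.cut x).1.2 c')) (le_trans ?_ c')
      · exact pow_le_of_le_one (by norm_num) (by norm_num) k.succ_ne_zero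
      · exact pow_le_of_le_one p.le (by linarith [r2, r0]) k.succ_ne_zero

end Pool.Agent.H.MP_b9fb92_an
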