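import Pool.Agent.H.MP_b9fb92_an.B

set_option linter.dupNamespace false
set_option linter.unnecessarySeqFocus false

namespace Pool.Agent.H.MP_b9fb92_an

open Set Filter Topology Complex
open scoped ComplexConjugate

noncomputable def Hp (g : ℝ → ℂ) (x : ℝ) : ℂ :=
  g x + ⟨2 / 5, -1 / 5⟩ * (1 - conj (g ((r + 2) ^ 1 * (1 + r - x))))

noncomputable def H (g : ℝ → ℂ) (x : ℝ) : ℂ :=
  Hp g x + ⟨-2 / 25, 11 / 25⟩ * conj (Hp g ((r + 2) ^ 1 * (-x)))

variable {g : ℝ → ℂ} {u x y : ℝ}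

lemma Gd.hc (G : Gd g) : Continuous (H g) := by
  have := G.c
  unfold H Hp; fun_prop

lemma Gd.p0 (G : Gd g) (h : x ≤ 1) : Hp g x = g x := by
  rw [Hp, G.b.o 1 (by linarith [pow_one r])]; simp

lemma Gd.p1 (G : Gd g) (h : u ∈ Icc (0 : ℝ) 1) :
    Hp g (1 + r - r ^ 1 * u) = ⟨7 / 5, -1 / 5⟩ - ⟨2 / 5, -1 / 5⟩ * conj (g u) := by
  rw [Hp, sub_sub_cancel, kr, G.b.2 _ (by linarith [pow_one r, (ub 1 h).2])]
  apply Complex.ext <;> simp <;> ring

lemma Gd.pos (G : Gd g) (h : 0 ≤ x) : H g x = Hp g x := by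
  have : (r + 2) ^ 1 * (-x) ≤ 0 := mul_nonpos_of_nonneg_of_nonpos (by linarith [pow_one (r + 2), r0])
    (by linarith)
  rw [H, G.p0 (this.trans zero_le_one), G.b.1 _ this]; simp

lemma Gd.neg (G : Gd g) (h : 0 ≤ y) : H g (-(r ^ 1 * y)) = ⟨-2 / 25, 11 / 25⟩ * conj (Hp g y) := by
  have : -(r ^ 1 * y) ≤ 0 := neg_nonpos.2 (mul_nonneg (pow_pos r0 1).le h)
  rw [H, neg_neg, kr, G.p0 (this.trans zero_le_one), G.b.1 _ this, zero_add]

lemma c1 (h0 : 1 ≤ y) (h : y ≤ 1 + r) : ∃ u ∈ Icc (0 : ℝ) 1, y = 1 + r - r ^ 1 * u := by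
  obtain ⟨u, hu, e⟩ := ex 1 (sub_nonneg.2 h) (by linarith [pow_one r])
  exact ⟨u, hu, by linarith⟩

lemma c2 (h0 : r - 1 ≤ x) (h : x ≤ 0) : ∃ y, 0 ≤ y ∧ y ≤ 1 + r ∧ x = -(r ^ 1 * y) :=
  ⟨-x / r, div_nonneg (by linarith) r0.le, (div_le_iff₀ r0).2 (by linarith [r2]),
    by rw [pow_one, mul_div_cancel₀ _ r0.ne', neg_neg]⟩

lemma Gd.R0 (G : Gd g) (h0 : r - 1 ≤ x) :
    H g (-(r ^ 1 * x)) = ⟨-2 / 25, 11 / 25⟩ * conj (H g x) := by
  rcases le_total 0 x with h | h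
  · rw [G.neg h, G.pos h]
  obtain ⟨y, y0, y1, rfl⟩ := c2 h0 h
  have := rb
  rw [G.neg y0, show -(r ^ 1 * -(r ^ 1 * y)) = r ^ 2 * y by ring,
    G.pos (mul_nonneg (pow_pos r0 2).le y0), G.p0 (by nlinarith [r2])]
  rcases le_total y 1 with c | c
  · rw [G.p0 c, (G.e y ⟨y0, c⟩).1]
    apply Complex.ext <;> simp <;> ring
  · obtain ⟨u, hu, rfl⟩ := c1 c y1
    rw [G.p1 hu, show r ^ 2 * (1 + r - r ^ 1 * u) = r ^ 2 + r ^ 3 - r ^ 3 * u by ring,
      (G.e u hu).2.1]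
    apply Complex.ext <;> simp <;> ring

lemma Gd.RA (G : Gd g) (h0 : r - 1 ≤ x) (h : x ≤ 0) :
    H g (x + (1 + r)) = ⟨3 / 5, 4 / 5⟩ * H g x + ⟨7 / 5, -1 / 5⟩ := by
  rw [G.pos (by linarith [r0])]
  obtain ⟨y, y0, y1, rfl⟩ := c2 h0 h
  rw [G.neg y0]
  rcases le_total y 1 with c | c
  · rw [G.p0 c, neg_add_eq_sub, G.p1 ⟨y0, c⟩]
    apply Complex.ext <;> simp <;> ring
  · obtain ⟨u, hu, rfl⟩ := c1 c y1
    rw [G.p1 hu, show -(r ^ 1 * (1 + r - r ^ 1 * u)) + (1 + r) = 2 * r + r ^ 2 * u by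
      linear_combination -r2, G.p0 (by linarith [r2, (ub 2 hu).2]), (G.e u hu).2.2.2.2]
    apply Complex.ext <;> simp <;> ring

lemma Gd.RB2 (G : Gd g) (h0 : 1 ≤ x) (h : x ≤ 1 + r) :
    H g (x - (1 - r)) = ⟨3 / 5, 4 / 5⟩ * H g x + ⟨-1 / 5, -1⟩ := by
  have := rb
  rw [G.pos (by linarith), G.pos (by linarith), G.p0 (by linarith)]
  obtain ⟨u, hu, rfl⟩ := c1 h0 h
  rw [G.p1 hu, show 1 + r - r ^ 1 * u - (1 - r) = 2 * r - r ^ 1 * u by ring, (G.e u hu).2.2.2.1]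
  apply Complex.ext <;> simp <;> ring

lemma Gd.RB1 (G : Gd g) (h : x ∈ Icc (0 : ℝ) 1) :
    H g (x - (1 - r)) = ⟨3 / 5, -4 / 5⟩ * H g x + ⟨-1 / 5, 3 / 5⟩ := by
  let e : ℝ → ℂ := fun x => H g (x - (1 - r)) - (⟨3 / 5, -4 / 5⟩ * H g x + ⟨-1 / 5, 3 / 5⟩)
  obtain ⟨M, hM⟩ := isCompact_Icc.exists_bound_of_continuousOn (s := Icc (0 : ℝ) 1) (f := e)
    (by have := G.hc; fun_prop)
  have M0 := (norm_nonneg _).trans (hM x h)
  obtain ⟨b1, b2⟩ := rb
  have := r2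
  have := r3
  have := pow_one r
  have hg : ∀ x ∈ Icc (0 : ℝ) 1, H g x = g x := fun x h => (G.pos h.1).trans (G.p0 h.2)
  have k : ∀ n, ∀ x ∈ Icc (0 : ℝ) 1, ‖e x‖ ≤ (3 / 5) ^ n * M := fun n => by
    induction n with
    | zero => simpa using hM
    | succ n ih =>
      intro x h
      have z : e x = 0 → ‖e x‖ ≤ (3 / 5) ^ (n + 1) * M := fun z => by
        rw [z, norm_zero]; positivity
      rcases le_total x (r ^ 2 + r ^ 3) with c | c
      · obtain ⟨y, y0, y1, rfl⟩ : ∃ y, r - 1 ≤ y ∧ y ≤ 0 ∧ x = -(r ^ 1 * y) :=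
          ⟨-x / r, (le_div_iff₀ r0).2 (by linarith), div_nonpos_of_nonpos_of_nonneg
            (by linarith [h.1]) r0.le, by rw [pow_one, mul_div_cancel₀ _ r0.ne', neg_neg]⟩
        refine z ?_
        simp only [e]
        rw [show -(r ^ 1 * y) - (1 - r) = -(r ^ 1 * (y + (1 + r))) by linear_combination r2,
          G.R0 y0, G.R0 (by linarith), G.RA y0 y1]
        apply Complex.ext <;> simp <;> ring
      rcases le_total x r with c' | c'
      · obtain ⟨u, hu, h'⟩ := ex 2 (sub_nonneg.2 c) (by linarith)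
        obtain ⟨a1, a2⟩ := ub 1 hu
        refine z ?_
        simp only [e]
        rw [hg x h, eq_add_of_sub_eq' h', (G.e u hu).2.2.1,
          show r ^ 2 + r ^ 3 + r ^ 2 * u - (1 - r) = -(r ^ 1 * (1 + r - r ^ 1 * u - (1 - r))) by
            linear_combination (r + 1) * r2, G.R0 (by linarith), G.RB2 (by linarith) (by linarith),
          G.pos (by linarith), G.p1 hu]
        apply Complex.ext <;> simp <;> ring
      rcases le_total x (2 * r) with c'' | c''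
      · obtain ⟨u, hu, h'⟩ := ex 1 (sub_nonneg.2 c'') (by linarith)
        have : e x = ⟨-2 / 25, 11 / 25⟩ * conj (e u) := by
          simp only [e]
          rw [hg x h, show x = 2 * r - r ^ 1 * u by linarith, (G.e u hu).2.2.2.1,
            show 2 * r - r ^ 1 * u - (1 - r) = -(r ^ 1 * (u - (1 - r))) by linear_combination r2,
            G.R0 (by linarith [hu.1]), hg u hu]
          apply Complex.ext <;> simp <;> ring
        rw [this, pow_succ', mul_assoc]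
        refine (nb (by norm_num [abs_of_pos]) _).trans ?_
        rw [norm_conj]
        exact mul_le_mul_of_nonneg_left (ih u hu) (by norm_num)
      · obtain ⟨u, hu, h'⟩ := ex 2 (sub_nonneg.2 c'') (by linarith [h.2])
        refine z ?_
        simp only [e]
        rw [hg x h, hg _ ⟨by linarith, by linarith [h.2]⟩, eq_add_of_sub_eq' h',
          show 2 * r + r ^ 2 * u - (1 - r) = r ^ 2 + r ^ 3 + r ^ 2 * u by linarith,
          (G.e u hu).2.2.2.2, (G.e u hu).2.2.1]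
        apply Complex.ext <;> simp <;> ring
  have t := (tendsto_pow_atTop_nhds_zero_of_lt_one (r := (3 / 5 : ℝ)) (by norm_num)
    (by norm_num)).mul_const M
  rw [zero_mul] at t
  exact sub_eq_zero.1 (norm_le_zero_iff.1 (ge_of_tendsto' t fun n => k n x h))

lemma Gd.l0 (G : Gd g) (h0 : r - 1 ≤ x) (h : x < 0) : (H g x).re < 0 := by
  obtain ⟨y, y0, y1, rfl⟩ := c2 h0 h.le
  rw [G.neg y0]
  rcases le_total y 1 with c | c
  · have := G.s0 (y0.lt_of_ne (by rintro rfl; simp at h))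
    obtain ⟨d1, d2, d3, d4⟩ := G.d y
    rw [G.p0 c]; simp; linarith
  · obtain ⟨u, hu, rfl⟩ := c1 c y1
    obtain ⟨d1, d2, d3, d4⟩ := G.d u
    rw [G.p1 hu]; simp; linarith

lemma Gd.l1 (G : Gd g) (h0 : 1 ≤ x) (h : x ≤ 1 + r) : 1 ≤ (Hp g x).re := by
  obtain ⟨u, hu, rfl⟩ := c1 h0 h
  obtain ⟨d1, d2, d3, d4⟩ := G.d u
  rw [G.p1 hu]; simp; linarith

lemma Gd.lk (G : Gd g) (h : x ∈ Icc (r - 1) (1 + r)) (k : ℕ) :
    (1 / 5) ^ k ≤ (H g x).re ↔ (r ^ 2) ^ k ≤ x := by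
  have p := pow_pos r0 2
  rcases lt_or_ge x 0 with c | c
  · exact iff_of_false (not_le.2 ((G.l0 h.1 c).trans (by positivity)))
      (not_le.2 (c.trans (pow_pos p k)))
  rw [G.pos c]
  rcases le_total x 1 with c' | c'
  · rw [G.p0 c', G.pw]
  · exact iff_of_true ((pow_le_one₀ (by norm_num) (by norm_num)).trans (G.l1 c' h.2))
      ((pow_le_one₀ p.le (by linarith [r2, r0])).trans c')

lemma Gd.lz (G : Gd g) (h : x ∈ Icc (r - 1) (1 + r)) : 0 ≤ (H g x).re ↔ 0 ≤ x := by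
  refine ⟨fun c => not_lt.1 fun c' => (G.l0 h.1 c').not_ge c, fun c => ?_⟩
  rw [G.pos c]
  rcases le_total x 1 with c' | c'
  · obtain ⟨d1, d2, -⟩ := G.d x
    rw [G.p0 c']; linarith
  · exact zero_le_one.trans (G.l1 c' h.2)

lemma Gd.ip (G : Gd g) (x0 : 0 ≤ x) (h : x < y) (y1 : y ≤ 1 + r) : Hp g x ≠ Hp g y := by
  rcases le_total y 1 with c | c
  · rw [G.p0 c, G.p0 (h.le.trans c)]; exact G.inj x0 h c
  rcases lt_or_ge x 1 with c' | c'
  · intro e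
    have := G.l1 c y1
    rw [← e, G.p0 c'.le] at this
    exact (G.s1 c').not_ge this
  obtain ⟨u, hu, rfl⟩ := c1 c' (h.le.trans y1)
  obtain ⟨v, hv, rfl⟩ := c1 c y1
  rw [G.p1 hu, G.p1 hv]
  exact fun e => G.inj hv.1 (lt_of_mul_lt_mul_left (a := r ^ 1) (by linarith) (pow_pos r0 1).le)
    hu.2 (star_injective (mul_left_cancel₀ (by simp [Complex.ext_iff]) (sub_right_injective e))).symm

lemma Gd.ih (G : Gd g) : InjOn (H g) (Icc (r - 1) (1 + r)) := by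
  suffices k : ∀ x ∈ Icc (r - 1) (1 + r), ∀ y ∈ Icc (r - 1) (1 + r), x < y → H g x ≠ H g y from
    fun x hx y hy e => (lt_trichotomy x y).elim (fun h => absurd e (k x hx y hy h))
      fun h => h.elim id fun h => absurd e.symm (k y hy x hx h)
  intro x hx y hy h
  rcases le_or_gt 0 x with c | c
  · rw [G.pos c, G.pos (c.trans h.le)]; exact G.ip c h hy.2
  rcases le_total 0 y with c' | c'
  · intro e
    exact c.not_ge ((G.lz hx).1 (e ▸ (G.lz hy).2 c'))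
  obtain ⟨u, u0, u1, rfl⟩ := c2 hx.1 c.le
  obtain ⟨v, v0, v1, rfl⟩ := c2 hy.1 c'
  rw [G.neg u0, G.neg v0]
  exact fun e => G.ip v0 (lt_of_mul_lt_mul_left (a := r ^ 1) (by linarith) (pow_pos r0 1).le)
    u1 (star_injective (mul_left_cancel₀ (by simp [Complex.ext_iff]) e)).symm

end Pool.Agent.H.MP_b9fb92_an
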